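import Mathlib

set_option autoImplicit false

namespace Pool.Agent.Results.MP_95765a_co.All

theorem result (V : Type) [Fintype V] (A : V → V → Prop) (hA : ∀ v, ¬ A v v) :
    ∃ (X : Type) (_ : Fintype X) (_ : Nonempty X) (f : V → Set X),
      Function.Injective f ∧
      (∀ u v u' v', A u v → A u' v' → f u \ f v = f u' \ f v' → u = u' ∧ v = v') ∧
      (∀ u v, A u v → (f u \ f v).ncard < (f v).ncard) ∧
      ∀ u v, A u v → ((f u \ f v).ncard : ℤ) = min ((f u).ncard : ℤ) (((f v).ncard : ℤ) - 1) := by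
  classical
  let f : V → Set (Option (Sym2 V)) := fun u => Set.range (fun w => some s(u, w))
  have inj : ∀ u, Function.Injective (fun w : V => some s(u, w)) := fun u a b h =>
    Sym2.congr_right.1 (Option.some.inj h)
  have card : ∀ u, (f u).ncard = Fintype.card V := fun u => by
    rw [Set.ncard_range_of_injective (inj u), Nat.card_eq_fintype_card]
  have mem : ∀ u v w, some s(u, w) ∈ f v ↔ u = v ∨ w = v := fun u v w => by
    simp only [f, Set.mem_range, Option.some.injEq, Sym2.eq_iff]
    constructor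
    · rintro ⟨x, h | h⟩
      exacts [Or.inl h.1.symm, Or.inr h.1.symm]
    · rintro (h | h)
      exacts [⟨w, Or.inl ⟨h.symm, rfl⟩⟩, ⟨u, Or.inr ⟨h.symm, rfl⟩⟩]
  have ne : ∀ u v, A u v → u ≠ v := fun u v h e => hA v (e ▸ h)
  have diff : ∀ u v, u ≠ v → f u \ f v = f u \ {some s(u, v)} := fun u v h => by
    ext x
    simp only [Set.mem_sdiff, Set.mem_singleton_iff]
    refine and_congr_right ?_
    rintro ⟨w, rfl⟩
    simp only [mem, h, false_or, (inj u).eq_iff]
  have c2 : ∀ u v, u ≠ v → (f u \ f v).ncard + 1 = Fintype.card V := fun u v h => by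
    rw [diff u v h, Set.ncard_sdiff_singleton_add_one ((mem u u v).2 (Or.inl rfl)), card]
  refine ⟨Option (Sym2 V), inferInstance, inferInstance, f, fun u v h => ?_,
    fun u v u' v' h h' e => ?_, fun u v h => ?_, fun u v h => ?_⟩
  · have : some s(u, u) ∈ f v := h ▸ (mem u u u).2 (Or.inl rfl)
    simpa [mem] using this
  · have h1 : some s(u, u) ∈ f u' \ f v' := e ▸ ⟨(mem u u u).2 (Or.inl rfl), by simp [mem, ne u v h]⟩
    have e1 : u = u' := by simpa [mem] using h1.1
    subst e1
    refine ⟨rfl, ?_⟩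
    by_contra hv
    have h2 : some s(u, v) ∈ f u \ f v' := ⟨(mem u u v).2 (Or.inl rfl), by simp [mem, ne u v' h', hv]⟩
    exact (e ▸ h2).2 ((mem u v v).2 (Or.inr rfl))
  · have := c2 u v (ne u v h)
    rw [card]; omega
  · have := c2 u v (ne u v h)
    rw [card, card]; omega

end Pool.Agent.Results.MP_95765a_co.All
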